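import Pool.Agent.H620R2.Gauge2.Defs

/-!
# Polylogarithmic space relative to an oracle

The machines have a read-only input, a memory (a bit string) and a write-only oracle tape which is
not counted as space. After every question the oracle tape is erased. Since the machines are
deterministic this is the model of Ladner and Lynch and also the one of Ruzzo, Simon and Tompa.
-/

namespace Pool.Agent.H752.PL

open Pool.Agent.NPC Pool.Agent.H620R2.Gauge

/-- The number with the given binary digits, the lowest digit first. -/
def val : List Bool → ℕ
  | [] => 0
  | b :: l => b.toNat + 2 * val l

/-- An algorithm with a small memory. If the memory contains the string `s`, then `act s` tells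
what comes next:
* `[]`: the algorithm stops and rejects;
* `[true]`: the algorithm stops and accepts;
* `true :: true :: i`: it reads the input symbol number `val i`;
* `true :: false :: i`: it asks the oracle whether the string on the oracle tape belongs to the
  oracle, and the oracle tape is erased;
* `false :: z`: it writes the string `z` on the oracle tape, behind the string already there.
The new content of the memory is `next ⟨s, a⟩` where `a` is `[b]` if the symbol `b` has been read
or `b` is the answer of the oracle, and the empty string in the other cases (also if there is no
input symbol number `val i`). Both functions are computable in time polynomial in the length of the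
memory, hence in polylogarithmic time and space if the memory is of polylogarithmic length. -/
structure MAlg : Type where
  /-- the next action, as a function of the content of the memory -/
  act : List Bool → List Bool
  /-- it is computable in polynomial time -/
  act_poly : PolyTime act
  /-- the next content of the memory -/
  next : List Bool → List Bool
  /-- it is computable in polynomial time -/
  next_poly : PolyTime next

/-- `M.Reach A x s y`: at some moment in the computation on input `x` with oracle `A` the memory
contains `s` and the oracle tape contains `y`. In the beginning the oracle tape is empty and the
memory contains the length of the input in binary (behind the symbol `true`). -/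
inductive MAlg.Reach (M : MAlg) (A : Oracle) (x : List Bool) : List Bool → List Bool → Prop
  | start : MAlg.Reach M A x (true :: Nat.bits x.length) []
  | write {s y z : List Bool} : MAlg.Reach M A x s y → M.act s = false :: z →
      MAlg.Reach M A x (M.next (pairBits s [])) (y ++ z)
  | read {s y i : List Bool} : MAlg.Reach M A x s y → M.act s = true :: true :: i →
      MAlg.Reach M A x (M.next (pairBits s (x[val i]?).toList)) y
  | ask {s y i : List Bool} : MAlg.Reach M A x s y → M.act s = true :: false :: i →
      MAlg.Reach M A x (M.next (pairBits s [A y])) []

/-- The language `L` is in polylogarithmic space relative to `A`: on every input `x` the memory
has length at most `(log |x| + c) ^ c`, and the algorithm stops and accepts if `x` is in `L`, and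
stops and rejects if it is not. -/
def IsPolyL (A : Oracle) (L : Set (List Bool)) : Prop :=
  ∃ (M : MAlg) (c : ℕ), ∀ x : List Bool,
    (∀ s y, M.Reach A x s y → s.length ≤ (Nat.log 2 x.length + c) ^ c) ∧
    ∃ s y, M.Reach A x s y ∧ ((x ∈ L ∧ M.act s = [true]) ∨ (x ∉ L ∧ M.act s = []))

end Pool.Agent.H752.PL
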