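import Pool.Agent.H752.PL.Defs

/-!
# Memory `O((log n)^k)` relative to an oracle
-/

namespace Pool.Agent.H752.PL

open Pool.Agent.NPC Pool.Agent.H620R2.Gauge

/-- The language `L` is decided, relative to `A`, with a memory of length at most
`c (log |x| + 1) ^ k` for some constant `c`. -/
def IsMem (A : Oracle) (k : ℕ) (L : Set (List Bool)) : Prop :=
  ∃ (M : MAlg) (c : ℕ), ∀ x : List Bool,
    (∀ s y, M.Reach A x s y → s.length ≤ c * (Nat.log 2 x.length + 1) ^ k) ∧
    ∃ s y, M.Reach A x s y ∧ ((x ∈ L ∧ M.act s = [true]) ∨ (x ∉ L ∧ M.act s = []))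

end Pool.Agent.H752.PL
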