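import Pool.Agent.H752.PL.Defs2

/-!
# Nondeterministic memory `O((log n)^k)` relative to an oracle

The model of Ruzzo, Simon and Tompa: a nondeterministic choice is only allowed while the oracle
tape is empty.
-/

namespace Pool.Agent.H752.PL

open Pool.Agent.NPC Pool.Agent.H620R2.Gauge

/-- A nondeterministic algorithm with a small memory. If the memory contains the string `s`, then
`act s` tells what comes next, as for deterministic algorithms (`MAlg`). The new content of the
memory is `next false ⟨s, a⟩` or, if the oracle tape was empty before the step, also possibly
`next true ⟨s, a⟩`; here `a` is the symbol read or the answer of the oracle, if any. -/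
structure NAlg : Type where
  /-- the next action, as a function of the content of the memory -/
  act : List Bool → List Bool
  /-- it is computable in polynomial time -/
  act_poly : PolyTime act
  /-- the next content of the memory, for the two choices -/
  next : Bool → List Bool → List Bool
  /-- both are computable in polynomial time -/
  next_poly : ∀ g, PolyTime (next g)

/-- `M.Reach A x s y`: in some computation on input `x` with oracle `A`, at some moment the memory
contains `s` and the oracle tape contains `y`. The choice `g = true` is only possible while the
oracle tape is empty. In the beginning the oracle tape is empty and the memory contains the length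
of the input in binary (behind the symbol `true`). -/
inductive NAlg.Reach (M : NAlg) (A : Oracle) (x : List Bool) : List Bool → List Bool → Prop
  | start : NAlg.Reach M A x (true :: Nat.bits x.length) []
  | write {s y z : List Bool} {g : Bool} : NAlg.Reach M A x s y → (g = true → y = []) →
      M.act s = false :: z → NAlg.Reach M A x (M.next g (pairBits s [])) (y ++ z)
  | read {s y i : List Bool} {g : Bool} : NAlg.Reach M A x s y → (g = true → y = []) →
      M.act s = true :: true :: i → NAlg.Reach M A x (M.next g (pairBits s (x[val i]?).toList)) y
  | ask {s y i : List Bool} {g : Bool} : NAlg.Reach M A x s y → (g = true → y = []) →
      M.act s = true :: false :: i → NAlg.Reach M A x (M.next g (pairBits s [A y])) []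

/-- The language `L` is decided nondeterministically, relative to `A`, with a memory of length at
most `c (log |x| + 1) ^ k` for some constant `c`: this bound holds in all computations, and `x` is
in `L` if and only if some computation accepts, that is, reaches a content `s` of the memory with
`act s = [true]`. -/
def IsNMem (A : Oracle) (k : ℕ) (L : Set (List Bool)) : Prop :=
  ∃ (M : NAlg) (c : ℕ), ∀ x : List Bool,
    (∀ s y, M.Reach A x s y → s.length ≤ c * (Nat.log 2 x.length + 1) ^ k) ∧
    (x ∈ L ↔ ∃ s y, M.Reach A x s y ∧ M.act s = [true])

end Pool.Agent.H752.PL
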