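import Pool.Agent.H752.PL.Stubs2
import Pool.Agent.H620R2.Gauge2.Null
import Pool.Agent.H620R2.Gauge2.Trans

/-!
# Assembly
-/

namespace Pool.Agent.H752.PL

open Pool.Agent.NPC Pool.Agent.H620R2.Gauge Filter

/-- a subset of a null set -/
theorem nullMono {f : ℕ → ℝ} {X Y : Set Oracle} (h : X ⊆ Y) (hY : Null f Y) : Null f X :=
  fun δ hδ => let ⟨S, hS, hs⟩ := hY δ hδ
  ⟨S, fun A hA => hS A (h hA), hs⟩

theorem iff1 (hnn : St_nn) (hnull : St_null) (hrev : St_rev) (hhl : St_hl) (hmach : St_mach)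
    (f : ℕ → ℝ) (O : Set Oracle)
    (h1 : ∀ A, (∀ L, IsPSPACE A L → IsPolyL A L) → A ∈ O)
    (h2 : ∀ A ∈ O, (∀ L, IsP A L → IsPolyL A L) ∨ (∀ L, IsPolyL A L → IsPSPACE A L)) :
    Null f O ↔ CondL f := by
  constructor
  · intro hn
    by_contra hcon
    exact hnn f hcon O h1 hn
  · intro hf
    refine nullMono (Y := {A | IsPolyL A (HL A)} ∪ {A | IsPSPACE A (H2 A)}) ?_
      (null_union (hnull f hf _ fun A hA => hA) (hrev f hf _ fun A hA => hA))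
    intro A hA
    rcases h2 A hA with h | h
    · exact Or.inl (h _ (hhl A))
    · exact Or.inr (h _ (hmach 0 0 2 A (H2 A) fun x => Iff.rfl))

/-- the first assembled statement -/
theorem final1 (hnn : St_nn) (hnull : St_null) (hrev : St_rev) (hhl : St_hl) (hmach : St_mach)
    (f : ℕ → ℝ) :
    (∀ O : Set Oracle,
      (∀ A : Oracle, (∀ L, IsPSPACE A L → IsPolyL A L) → A ∈ O) →
      (∀ A ∈ O, (∀ L, IsP A L → IsPolyL A L) ∨ (∀ L, IsPolyL A L → IsPSPACE A L)) →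
      (Null f O ↔ ∀ ε : ℝ, 0 < ε → ∃ᶠ N : ℕ in atTop,
        f N ≤ 2 ^ (2 : ℝ) ^ (Real.logb 2 (Real.logb 2 N)) ^ ε)) ∧
    (Null f {A : Oracle | (∀ L, IsP A L → IsPolyL A L) ∨ (∀ L, IsPolyL A L → IsP A L)} ↔
      ∀ ε : ℝ, 0 < ε → ∃ᶠ N : ℕ in atTop,
        f N ≤ 2 ^ (2 : ℝ) ^ (Real.logb 2 (Real.logb 2 N)) ^ ε) ∧
    (Null f {A : Oracle | (∀ L, IsNP A L → IsPolyL A L) ∨ (∀ L, IsPolyL A L → IsNP A L)} ↔
      ∀ ε : ℝ, 0 < ε → ∃ᶠ N : ℕ in atTop,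
        f N ≤ 2 ^ (2 : ℝ) ^ (Real.logb 2 (Real.logb 2 N)) ^ ε) ∧
    (Null f {A : Oracle | ∀ L, IsP A L → IsPolyL A L} ↔
      ∀ ε : ℝ, 0 < ε → ∃ᶠ N : ℕ in atTop,
        f N ≤ 2 ^ (2 : ℝ) ^ (Real.logb 2 (Real.logb 2 N)) ^ ε) ∧
    (Null f {A : Oracle | ∀ L, IsNP A L → IsPolyL A L} ↔
      ∀ ε : ℝ, 0 < ε → ∃ᶠ N : ℕ in atTop,
        f N ≤ 2 ^ (2 : ℝ) ^ (Real.logb 2 (Real.logb 2 N)) ^ ε) := by
  have key : ∀ O : Set Oracle,
      (∀ A : Oracle, (∀ L, IsPSPACE A L → IsPolyL A L) → A ∈ O) →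
      (∀ A ∈ O, (∀ L, IsP A L → IsPolyL A L) ∨ (∀ L, IsPolyL A L → IsPSPACE A L)) →
      (Null f O ↔ ∀ ε : ℝ, 0 < ε → ∃ᶠ N : ℕ in atTop,
        f N ≤ 2 ^ (2 : ℝ) ^ (Real.logb 2 (Real.logb 2 N)) ^ ε) :=
    fun O h1 h2 => iff1 hnn hnull hrev hhl hmach f O h1 h2
  refine ⟨key, key _ ?_ ?_, key _ ?_ ?_, key _ ?_ ?_, key _ ?_ ?_⟩
  · exact fun A hA => Or.inl fun L hL => hA L hL.isPSPACE
  · rintro A (hA | hA)
    · exact Or.inl hA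
    · exact Or.inr fun L hL => (hA L hL).isPSPACE
  · exact fun A hA => Or.inl fun L hL => hA L hL.isPSPACE
  · rintro A (hA | hA)
    · exact Or.inl fun L hL => hA L hL.isNP
    · exact Or.inr fun L hL => (hA L hL).isPSPACE
  · exact fun A hA L hL => hA L hL.isPSPACE
  · exact fun A hA => Or.inl hA
  · exact fun A hA L hL => hA L hL.isPSPACE
  · exact fun A hA => Or.inl fun L hL => hA L hL.isNP

/-- a memory of length `O((log n)^k)` is polylogarithmic -/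
theorem IsMem.isPolyL {A : Oracle} {k : ℕ} {L : Set (List Bool)} (h : IsMem A k L) :
    IsPolyL A L := by
  obtain ⟨M, c, h⟩ := h
  refine ⟨M, c + k + 1, fun x => ⟨fun s y hr => ((h x).1 s y hr).trans ?_, (h x).2⟩⟩
  set l := Nat.log 2 x.length
  calc c * (l + 1) ^ k ≤ (l + (c + k + 1)) * (l + (c + k + 1)) ^ k :=
        Nat.mul_le_mul (by omega) (Nat.pow_le_pow_left (by omega) k)
    _ = (l + (c + k + 1)) ^ (k + 1) := by rw [pow_succ, mul_comm]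
    _ ≤ (l + (c + k + 1)) ^ (c + k + 1) := Nat.pow_le_pow_right (by omega) (by omega)

/-- the second assembled statement -/
theorem final2 (hnnK : St_nnK) (hnull : St_null) (hnullK : St_nullK) (hhl : St_hl)
    (f : ℕ → ℝ) :
    (∀ k : ℕ, 1 ≤ k → ∀ O : Set Oracle,
      (∀ A : Oracle, (∀ L, IsPSPACE A L → IsMem A k L) → A ∈ O) →
      (∀ A ∈ O, ∀ L, IsP A L → IsMem A k L) → ∀ s : ℝ,
      (0 < s → s < 1 / k → (∃ᶠ N : ℕ in atTop,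
        f N ≤ 2 ^ (2 : ℝ) ^ (Real.logb 2 (Real.logb 2 N)) ^ s) → Null f O) ∧
      (1 / k < s → (∀ᶠ N : ℕ in atTop,
        2 ^ (2 : ℝ) ^ (Real.logb 2 (Real.logb 2 N)) ^ s < f N) → ¬ Null f O)) ∧
    (∀ O : Set Oracle,
      (∀ (A : Oracle) (k : ℕ), (∀ L, IsPSPACE A L → IsMem A k L) → A ∈ O) →
      (∀ A ∈ O, ∃ k : ℕ, ∀ L, IsP A L → IsMem A k L) →
      (Null f O ↔ ∀ ε : ℝ, 0 < ε → ∃ᶠ N : ℕ in atTop,
        f N ≤ 2 ^ (2 : ℝ) ^ (Real.logb 2 (Real.logb 2 N)) ^ ε)) ∧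
    (Null f {A : Oracle | ∃ k : ℕ, ∀ L, IsP A L → IsMem A k L} ↔
      ∀ ε : ℝ, 0 < ε → ∃ᶠ N : ℕ in atTop,
        f N ≤ 2 ^ (2 : ℝ) ^ (Real.logb 2 (Real.logb 2 N)) ^ ε) ∧
    (Null f {A : Oracle | ∃ k : ℕ, ∀ L, IsNP A L → IsMem A k L} ↔
      ∀ ε : ℝ, 0 < ε → ∃ᶠ N : ℕ in atTop,
        f N ≤ 2 ^ (2 : ℝ) ^ (Real.logb 2 (Real.logb 2 N)) ^ ε) := by
  have key : ∀ O : Set Oracle,
      (∀ (A : Oracle) (k : ℕ), (∀ L, IsPSPACE A L → IsMem A k L) → A ∈ O) →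
      (∀ A ∈ O, ∃ k : ℕ, ∀ L, IsP A L → IsMem A k L) →
      (Null f O ↔ ∀ ε : ℝ, 0 < ε → ∃ᶠ N : ℕ in atTop,
        f N ≤ 2 ^ (2 : ℝ) ^ (Real.logb 2 (Real.logb 2 N)) ^ ε) := by
    intro O h1 h2
    constructor
    · intro hn ε hε
      by_contra hcon
      rw [Filter.not_frequently] at hcon
      obtain ⟨k, hk⟩ := exists_nat_gt (1 / ε)
      have hk0 : (0 : ℝ) < k := lt_trans (by positivity) hk
      have hk1 : 1 ≤ k := by exact_mod_cast Nat.one_le_iff_ne_zero.2 (by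
        rintro rfl; simp at hk0)
      refine hnnK f k ε hk1 ?_ (hcon.mono fun N h => not_le.1 h) O (fun A hA => h1 A k hA) hn
      rw [div_lt_iff₀ hk0]
      rw [div_lt_iff₀ hε] at hk
      linarith
    · intro hf
      refine hnull f hf O fun A hA => ?_
      obtain ⟨k, hk⟩ := h2 A hA
      exact (hk _ (hhl A)).isPolyL
  refine ⟨fun k hk O h1 h2 s => ⟨fun hs hs' hf => ?_, fun hs hf => ?_⟩, key, key _ ?_ ?_,
    key _ ?_ ?_⟩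
  · exact hnullK f k s hk hs hs' hf O fun A hA => h2 A hA _ (hhl A)
  · exact hnnK f k s hk hs hf O h1
  · exact fun A k hA => ⟨k, fun L hL => hA L hL.isPSPACE⟩
  · exact fun A hA => hA
  · exact fun A k hA => ⟨k, fun L hL => hA L hL.isPSPACE⟩
  · rintro A ⟨k, hk⟩
    exact ⟨k, fun L hL => hk L hL.isNP⟩

end Pool.Agent.H752.PL
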