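import Pool.Agent.H752.PL.Stubs3
import Pool.Agent.H752.PL.Final

/-!
# Assembly, third part
-/

namespace Pool.Agent.H752.PL

open Pool.Agent.NPC Pool.Agent.H620R2.Gauge Filter

theorem tendsto_loglog : Tendsto (fun N : ℕ => Real.logb 2 (Real.logb 2 N)) atTop atTop :=
  (Real.tendsto_logb_atTop (by norm_num)).comp
    ((Real.tendsto_logb_atTop (by norm_num)).comp tendsto_natCast_atTop_atTop)

/-- the third assembled statement -/
theorem final3 (hnnS : St_nnS) (hnull : St_null) (hnullS : St_nullS) (hhl : St_hl)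
    (f : ℕ → ℝ) :
    (∀ k : ℕ, 1 ≤ k → ∀ O : Set Oracle,
      (∀ A : Oracle, (∀ L, IsPSPACE A L → IsMem A k L) → A ∈ O) →
      (∀ A ∈ O, ∀ L, IsP A L → IsMem A k L) →
      (Null f O ↔ ∀ ε : ℝ, 0 < ε → ∃ᶠ N : ℕ in atTop,
        f N ≤ 2 ^ (2 : ℝ) ^ (ε * Real.logb 2 (Real.logb 2 N)) ^ (1 / k : ℝ))) ∧
    (∀ O : Set Oracle,
      (∀ A : Oracle, (∀ L, IsPSPACE A L → IsMem A 1 L) → A ∈ O) →
      (∀ A ∈ O, ∀ L, IsP A L → IsMem A 1 L) →
      (Null f O ↔ ∀ ε : ℝ, 0 < ε → ∃ᶠ N : ℕ in atTop, f N ≤ 2 ^ (Real.logb 2 N) ^ ε)) ∧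
    (∀ O : Set Oracle,
      (∀ (A : Oracle) (k : ℕ), (∀ L, IsPSPACE A L → IsMem A k L) → A ∈ O) →
      (∀ A ∈ O, ∃ k : ℕ, ∀ L, IsP A L → IsMem A k L) →
      (Null f O ↔ ∀ ε : ℝ, 0 < ε → ∃ᶠ N : ℕ in atTop,
        f N ≤ 2 ^ (2 : ℝ) ^ (Real.logb 2 (Real.logb 2 N)) ^ ε)) ∧
    (Null f {A : Oracle | ∃ k : ℕ, ∀ L, IsP A L → IsMem A k L} ↔
      ∀ ε : ℝ, 0 < ε → ∃ᶠ N : ℕ in atTop,
        f N ≤ 2 ^ (2 : ℝ) ^ (Real.logb 2 (Real.logb 2 N)) ^ ε) ∧
    (Null f {A : Oracle | ∃ k : ℕ, ∀ L, IsNP A L → IsMem A k L} ↔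
      ∀ ε : ℝ, 0 < ε → ∃ᶠ N : ℕ in atTop,
        f N ≤ 2 ^ (2 : ℝ) ^ (Real.logb 2 (Real.logb 2 N)) ^ ε) := by
  have kk : ∀ k : ℕ, 1 ≤ k → ∀ O : Set Oracle,
      (∀ A : Oracle, (∀ L, IsPSPACE A L → IsMem A k L) → A ∈ O) →
      (∀ A ∈ O, ∀ L, IsP A L → IsMem A k L) →
      (Null f O ↔ ∀ ε : ℝ, 0 < ε → ∃ᶠ N : ℕ in atTop,
        f N ≤ 2 ^ (2 : ℝ) ^ (ε * Real.logb 2 (Real.logb 2 N)) ^ (1 / k : ℝ)) := by
    intro k hk O h1 h2
    constructor
    · intro hn ε hε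
      by_contra hcon
      rw [Filter.not_frequently] at hcon
      exact hnnS f k ε hk hε (hcon.mono fun N h => not_le.1 h) O h1 hn
    · intro hf
      exact hnullS f k hk hf O fun A hA => h2 A hA _ (hhl A)
  have key : ∀ O : Set Oracle,
      (∀ (A : Oracle) (k : ℕ), (∀ L, IsPSPACE A L → IsMem A k L) → A ∈ O) →
      (∀ A ∈ O, ∃ k : ℕ, ∀ L, IsP A L → IsMem A k L) →
      (Null f O ↔ ∀ ε : ℝ, 0 < ε → ∃ᶠ N : ℕ in atTop,
        f N ≤ 2 ^ (2 : ℝ) ^ (Real.logb 2 (Real.logb 2 N)) ^ ε) := by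
    intro O h1 h2
    constructor
    · intro hn ε hε
      by_contra hcon
      rw [Filter.not_frequently] at hcon
      obtain ⟨k, hk⟩ := exists_nat_gt (1 / ε)
      have hk0 : (0 : ℝ) < k := lt_trans (by positivity) hk
      have hk1 : 1 ≤ k := by exact_mod_cast Nat.one_le_iff_ne_zero.2 (by
        rintro rfl; simp at hk0)
      have hke : (1 : ℝ) / k ≤ ε := by
        rw [div_le_iff₀ hk0]
        rw [div_lt_iff₀ hε] at hk
        linarith
      refine hnnS f k 1 hk1 one_pos ?_ O (fun A hA => h1 A k hA) hn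
      filter_upwards [hcon, tendsto_loglog.eventually_ge_atTop 1] with N hN hl
      refine lt_of_le_of_lt ?_ (not_le.1 hN)
      refine Real.rpow_le_rpow_of_exponent_le one_le_two ?_
      refine Real.rpow_le_rpow_of_exponent_le one_le_two ?_
      rw [one_mul]
      exact Real.rpow_le_rpow_of_exponent_le hl hke
    · intro hf
      refine hnull f hf O fun A hA => ?_
      obtain ⟨k, hk⟩ := h2 A hA
      exact (hk _ (hhl A)).isPolyL
  refine ⟨kk, ?_, key, key _ ?_ ?_, key _ ?_ ?_⟩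
  · intro O h1 h2
    rw [kk 1 le_rfl O h1 h2]
    have e : ∀ ε : ℝ, ∀ᶠ N : ℕ in atTop,
        (2 : ℝ) ^ (2 : ℝ) ^ (ε * Real.logb 2 (Real.logb 2 N)) ^ (1 / (1 : ℕ) : ℝ) =
          2 ^ (Real.logb 2 N) ^ ε := by
      intro ε
      filter_upwards [tendsto_loglog.eventually_ge_atTop 1,
        ((Real.tendsto_logb_atTop (by norm_num : (1 : ℝ) < 2)).comp
          tendsto_natCast_atTop_atTop).eventually_ge_atTop 1] with N hl hL
      have hL' : (0 : ℝ) < Real.logb 2 N := lt_of_lt_of_le one_pos hL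
      congr 1
      rw [Nat.cast_one, div_one, Real.rpow_one, mul_comm, Real.rpow_mul (by norm_num),
        Real.rpow_logb (by norm_num) (by norm_num) hL']
    refine forall_congr' fun ε => imp_congr Iff.rfl ?_
    constructor
    · intro h
      exact (h.and_eventually (e ε)).mono fun N hN => hN.2 ▸ hN.1
    · intro h
      exact (h.and_eventually (e ε)).mono fun N hN => hN.2.symm ▸ hN.1
  · exact fun A k hA => ⟨k, fun L hL => hA L hL.isPSPACE⟩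
  · exact fun A hA => hA
  · exact fun A k hA => ⟨k, fun L hL => hA L hL.isPSPACE⟩
  · rintro A ⟨k, hk⟩
    exact ⟨k, fun L hL => hk L hL.isNP⟩

end Pool.Agent.H752.PL
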