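import Pool.Agent.H752.PL.Stubs3
import Pool.Agent.H752.PL.DefsN

/-!
# The statements of the tasks, nondeterministic part
-/

namespace Pool.Agent.H752.PL

open Pool.Agent.NPC Pool.Agent.H620R2.Gauge Finset H568R2 Pool.Agent.H752.GE Filter

/-- like `NAlg.Reach`, but the memory must never be longer than `B` -/
inductive NReachB (M : NAlg) (B : ℕ) (A : Oracle) (x : List Bool) :
    List Bool → List Bool → Prop
  | start : (true :: Nat.bits x.length).length ≤ B →
      NReachB M B A x (true :: Nat.bits x.length) []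
  | write {s y z : List Bool} {g : Bool} : NReachB M B A x s y → (g = true → y = []) →
      M.act s = false :: z → (M.next g (pairBits s [])).length ≤ B →
      NReachB M B A x (M.next g (pairBits s [])) (y ++ z)
  | read {s y i : List Bool} {g : Bool} : NReachB M B A x s y → (g = true → y = []) →
      M.act s = true :: true :: i → (M.next g (pairBits s (x[val i]?).toList)).length ≤ B →
      NReachB M B A x (M.next g (pairBits s (x[val i]?).toList)) y
  | ask {s y i : List Bool} {g : Bool} : NReachB M B A x s y → (g = true → y = []) →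
      M.act s = true :: false :: i → (M.next g (pairBits s [A y])).length ≤ B →
      NReachB M B A x (M.next g (pairBits s [A y])) []

/-- some computation accepts without using more than `B` bits of memory -/
def NAccB (M : NAlg) (B : ℕ) (A : Oracle) (x : List Bool) : Prop :=
  ∃ s y, NReachB M B A x s y ∧ M.act s = [true]

/-- N6 -/
def St_nacc : Prop := ∀ (M : NAlg) (B : ℕ) (A : Oracle) (x : List Bool) (L : Set (List Bool)),
    (∀ s y, M.Reach A x s y → s.length ≤ B) →
    (x ∈ L ↔ ∃ s y, M.Reach A x s y ∧ M.act s = [true]) →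
    (NAccB M B A x ↔ x ∈ L)

/-- N7 -/
def St_nqs : Prop := ∀ M : NAlg, ∃ w : Polynomial ℕ, ∀ (B : ℕ) (x : List Bool),
    ∃ U : Finset (List Bool), U.card ≤ 2 ^ (B + 2) ∧
      (∀ u ∈ U, u.length ≤ 2 ^ (B + 2) * w.eval B) ∧
      ∀ A A' : Oracle, (∀ u ∈ U, A u = A' u) → (NAccB M B A x ↔ NAccB M B A' x)

/-- N8 -/
def St_nemb : Prop := ∀ (A : Oracle) (k : ℕ) (L : Set (List Bool)), IsMem A k L → IsNMem A k L

/-- N12 -/
def St_nnull : Prop := ∀ (f : ℕ → ℝ) (k : ℕ), 1 ≤ k →
    (∀ ε : ℝ, 0 < ε → ∃ᶠ N : ℕ in atTop,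
      f N ≤ 2 ^ (2 : ℝ) ^ (ε * Real.logb 2 (Real.logb 2 N)) ^ (1 / k : ℝ)) →
    ∀ O : Set Oracle, (∀ A ∈ O, IsNMem A k (HL A)) → Null f O

end Pool.Agent.H752.PL
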