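import Pool.Agent.H752.PL.Final3
import Pool.Agent.H752.PL.StubsN

/-!
# Assembly, nondeterministic part
-/

namespace Pool.Agent.H752.PL

open Pool.Agent.NPC Pool.Agent.H620R2.Gauge Filter

/-- fixed `k` -/
theorem iffN (hnnS : St_nnS) (hN : St_nnull) (hemb : St_nemb) (hhl : St_hl) (f : ℕ → ℝ)
    (k : ℕ) (hk : 1 ≤ k) (O : Set Oracle)
    (h1 : ∀ A : Oracle, (∀ L, IsPSPACE A L → IsMem A k L) → A ∈ O)
    (h2 : ∀ A ∈ O, ∀ L, IsP A L → IsNMem A k L) :
    Null f O ↔ ∀ ε : ℝ, 0 < ε → ∃ᶠ N : ℕ in atTop,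
      f N ≤ 2 ^ (2 : ℝ) ^ (ε * Real.logb 2 (Real.logb 2 N)) ^ (1 / k : ℝ) := by
  constructor
  · intro hn ε hε
    by_contra hcon
    rw [Filter.not_frequently] at hcon
    exact hnnS f k ε hk hε (hcon.mono fun N h => not_le.1 h) O h1 hn
  · intro hf
    exact hN f k hk hf O fun A hA => h2 A hA _ (hhl A)

/-- the fourth assembled statement -/
theorem final4 (hnnS : St_nnS) (hN : St_nnull) (hemb : St_nemb) (hhl : St_hl) (f : ℕ → ℝ) :
    (∀ k : ℕ, 1 ≤ k → ∀ O : Set Oracle,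
      (∀ A : Oracle, (∀ L, IsPSPACE A L → IsMem A k L) → A ∈ O) →
      (∀ A ∈ O, ∀ L, IsP A L → IsNMem A k L) →
      (Null f O ↔ ∀ ε : ℝ, 0 < ε → ∃ᶠ N : ℕ in atTop,
        f N ≤ 2 ^ (2 : ℝ) ^ (ε * Real.logb 2 (Real.logb 2 N)) ^ (1 / k : ℝ))) ∧
    (∀ k : ℕ, 1 ≤ k → ∀ X ∈ ({IsP, IsNP} : Set (Oracle → Set (List Bool) → Prop)),
      ∀ Y ∈ ({IsMem, IsNMem} : Set (Oracle → ℕ → Set (List Bool) → Prop)),
      (Null f {A : Oracle | ∀ L, X A L → Y A k L} ↔ ∀ ε : ℝ, 0 < ε → ∃ᶠ N : ℕ in atTop,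
        f N ≤ 2 ^ (2 : ℝ) ^ (ε * Real.logb 2 (Real.logb 2 N)) ^ (1 / k : ℝ))) ∧
    (∀ O : Set Oracle,
      (∀ A : Oracle, (∀ L, IsPSPACE A L → IsMem A 1 L) → A ∈ O) →
      (∀ A ∈ O, ∀ L, IsP A L → IsNMem A 1 L) →
      (Null f O ↔ ∀ ε : ℝ, 0 < ε → ∃ᶠ N : ℕ in atTop, f N ≤ 2 ^ (Real.logb 2 N) ^ ε)) := by
  have kk := iffN hnnS hN hemb hhl f
  refine ⟨kk, ?_, ?_⟩
  · intro k hk X hX Y hY
    refine kk k hk _ ?_ ?_
    · intro A hA L hL
      have h1 : IsPSPACE A L := by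
        rcases hX with rfl | hX
        · exact hL.isPSPACE
        · rw [Set.mem_singleton_iff] at hX
          subst hX
          exact hL.isPSPACE
      rcases hY with rfl | hY
      · exact hA L h1
      · rw [Set.mem_singleton_iff] at hY
        subst hY
        exact hemb A k L (hA L h1)
    · intro A hA L hL
      have h1 : X A L := by
        rcases hX with rfl | hX
        · exact hL
        · rw [Set.mem_singleton_iff] at hX
          subst hX
          exact hL.isNP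
      have h2 := hA L h1
      rcases hY with rfl | hY
      · exact hemb A k L h2
      · rw [Set.mem_singleton_iff] at hY
        subst hY
        exact h2
  · intro O h1 h2
    rw [kk 1 le_rfl O h1 h2]
    have e : ∀ ε : ℝ, ∀ᶠ N : ℕ in atTop,
        (2 : ℝ) ^ (2 : ℝ) ^ (ε * Real.logb 2 (Real.logb 2 N)) ^ (1 / (1 : ℕ) : ℝ) =
          2 ^ (Real.logb 2 N) ^ ε := by
      intro ε
      filter_upwards [tendsto_loglog.eventually_ge_atTop 1,
        ((Real.tendsto_logb_atTop (by norm_num : (1 : ℝ) < 2)).comp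
          tendsto_natCast_atTop_atTop).eventually_ge_atTop 1] with N hl hL
      have hL' : (0 : ℝ) < Real.logb 2 N := lt_of_lt_of_le one_pos hL
      congr 1
      rw [Nat.cast_one, div_one, Real.rpow_one, mul_comm, Real.rpow_mul (by norm_num),
        Real.rpow_logb (by norm_num) (by norm_num) hL']
    refine forall_congr' fun ε => imp_congr Iff.rfl ?_
    constructor
    · intro h
      exact (h.and_eventually (e ε)).mono fun N hN => hN.2 ▸ hN.1
    · intro h
      exact (h.and_eventually (e ε)).mono fun N hN => hN.2.symm ▸ hN.1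

/-- the fifth assembled statement -/
theorem final5 (hnnS : St_nnS) (hN : St_nnull) (hemb : St_nemb) (hhl : St_hl) (f : ℕ → ℝ) :
    (∀ O : Set Oracle,
      (∀ (A : Oracle) (k : ℕ), (∀ L, IsPSPACE A L → IsMem A k L) → A ∈ O) →
      (∀ A ∈ O, ∀ L, IsP A L → ∃ k : ℕ, IsNMem A k L) →
      (Null f O ↔ ∀ ε : ℝ, 0 < ε → ∃ᶠ N : ℕ in atTop,
        f N ≤ 2 ^ (2 : ℝ) ^ (Real.logb 2 (Real.logb 2 N)) ^ ε)) ∧
    (Null f {A : Oracle | ∃ k : ℕ, ∀ L, IsP A L → IsNMem A k L} ↔
      ∀ ε : ℝ, 0 < ε → ∃ᶠ N : ℕ in atTop,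
        f N ≤ 2 ^ (2 : ℝ) ^ (Real.logb 2 (Real.logb 2 N)) ^ ε) ∧
    (Null f {A : Oracle | ∀ L, IsP A L → ∃ k : ℕ, IsNMem A k L} ↔
      ∀ ε : ℝ, 0 < ε → ∃ᶠ N : ℕ in atTop,
        f N ≤ 2 ^ (2 : ℝ) ^ (Real.logb 2 (Real.logb 2 N)) ^ ε) := by
  have key : ∀ O : Set Oracle,
      (∀ (A : Oracle) (k : ℕ), (∀ L, IsPSPACE A L → IsMem A k L) → A ∈ O) →
      (∀ A ∈ O, ∀ L, IsP A L → ∃ k : ℕ, IsNMem A k L) →
      (Null f O ↔ ∀ ε : ℝ, 0 < ε → ∃ᶠ N : ℕ in atTop,
        f N ≤ 2 ^ (2 : ℝ) ^ (Real.logb 2 (Real.logb 2 N)) ^ ε) := by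
    intro O h1 h2
    constructor
    · intro hn ε hε
      by_contra hcon
      rw [Filter.not_frequently] at hcon
      obtain ⟨k, hk⟩ := exists_nat_gt (1 / ε)
      have hk0 : (0 : ℝ) < k := lt_trans (by positivity) hk
      have hk1 : 1 ≤ k := by exact_mod_cast Nat.one_le_iff_ne_zero.2 (by
        rintro rfl; simp at hk0)
      have hke : (1 : ℝ) / k ≤ ε := by
        rw [div_le_iff₀ hk0]
        rw [div_lt_iff₀ hε] at hk
        linarith
      refine hnnS f k 1 hk1 one_pos ?_ O (fun A hA => h1 A k hA) hn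
      filter_upwards [hcon, tendsto_loglog.eventually_ge_atTop 1] with N hN hl
      refine lt_of_le_of_lt ?_ (not_le.1 hN)
      refine Real.rpow_le_rpow_of_exponent_le one_le_two ?_
      refine Real.rpow_le_rpow_of_exponent_le one_le_two ?_
      rw [one_mul]
      exact Real.rpow_le_rpow_of_exponent_le hl hke
    · intro hf
      refine nullMono (Y := ⋃ k : ℕ, {A | IsNMem A (k + 1) (HL A)}) ?_
        (null_iUnion _ fun k => hN f (k + 1) (by omega) ?_ _ fun A hA => hA)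
      · intro A hA
        obtain ⟨k, M, c, h⟩ := h2 A hA _ (hhl A)
        refine Set.mem_iUnion.2 ⟨k, M, c, fun x => ⟨fun s y hr => ((h x).1 s y hr).trans ?_,
          (h x).2⟩⟩
        exact Nat.mul_le_mul_left _ (Nat.pow_le_pow_right (by omega) (by omega))
      · intro ε hε
        have hk0 : (0 : ℝ) < ((k + 1 : ℕ) : ℝ) := by positivity
        set t : ℝ := 1 / ((k + 1 : ℕ) : ℝ) with ht
        have ht0 : 0 < t := by positivity
        have hev : ∀ᶠ N : ℕ in atTop, (Real.logb 2 (Real.logb 2 N)) ^ (t / 2) ≤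
            (ε * Real.logb 2 (Real.logb 2 N)) ^ t := by
          have h3 : Tendsto (fun N : ℕ => (Real.logb 2 (Real.logb 2 N)) ^ (t / 2)) atTop atTop :=
            (tendsto_rpow_atTop (by positivity)).comp tendsto_loglog
          filter_upwards [tendsto_loglog.eventually_ge_atTop 1,
            h3.eventually_ge_atTop (1 / ε ^ t)] with N hl h4
          have hl0 : 0 ≤ Real.logb 2 (Real.logb 2 N) := by linarith
          have hεt : 0 < ε ^ t := Real.rpow_pos_of_pos hε t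
          rw [Real.mul_rpow hε.le hl0]
          have h5 : (Real.logb 2 (Real.logb 2 N)) ^ t = (Real.logb 2 (Real.logb 2 N)) ^ (t / 2) *
              (Real.logb 2 (Real.logb 2 N)) ^ (t / 2) := by
            rw [← Real.rpow_add (by linarith)]
            congr 1
            ring
          rw [h5, ← mul_assoc]
          have h6 : 1 ≤ ε ^ t * (Real.logb 2 (Real.logb 2 N)) ^ (t / 2) := by
            rw [div_le_iff₀ hεt] at h4
            linarith
          have h7 : 0 ≤ (Real.logb 2 (Real.logb 2 N)) ^ (t / 2) := Real.rpow_nonneg hl0 _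
          nlinarith
        refine ((hf (t / 2) (by positivity)).and_eventually hev).mono fun N hN => hN.1.trans ?_
        refine Real.rpow_le_rpow_of_exponent_le one_le_two ?_
        exact Real.rpow_le_rpow_of_exponent_le one_le_two hN.2
  refine ⟨key, key _ ?_ ?_, key _ ?_ ?_⟩
  · exact fun A k hA => ⟨k, fun L hL => hemb A k L (hA L hL.isPSPACE)⟩
  · rintro A ⟨k, hk⟩ L hL
    exact ⟨k, hk L hL⟩
  · exact fun A k hA L hL => ⟨k, hemb A k L (hA L hL.isPSPACE)⟩
  · exact fun A hA => hA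

end Pool.Agent.H752.PL
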