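import Pool.Agent.H752.PL.Stubs3
import Pool.Agent.H752.GE.G9
import Pool.Agent.H622R2.Exp.L

/-!
# M5: too many oracles (after helper650's L5)
-/

set_option autoImplicit false

namespace Pool.Agent.H752.PL

open Pool.Agent.NPC Pool.Agent.H620R2.Gauge Finset H568R2 Pool.Agent.H752.GE Filter

theorem t_nnS (h2 : St_vp) (h3 : St_machK) (h4 : St_spS) : St_nnS := by
  classical
  intro f k ε hk hε hev O hO
  obtain ⟨V, q, hV, hPS⟩ := h2
  obtain ⟨ρ, hcρ, hsp⟩ := h4 k q ε hk hε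
  obtain ⟨Φ, hΦ1, hΦ2⟩ := exists_codingG V (fun e m => 2 ^ (ρ e * (Nat.log 2 m + ρ e + 1) ^ k))
    (fun e A A' x h => hV e A A' x (fun z hz => h z (hz.trans (hcρ e _).le)))
  refine Pool.Agent.H622R2.Exp.not_null_ev f Φ
    {y | ∃ e x, y = codeS (fun e m => 2 ^ (ρ e * (Nat.log 2 m + ρ e + 1) ^ k)) e x} ?_ ?_ O
    (fun B => hO _ ?_)
  · intro B y hy
    exact hΦ1 B y (fun e x h => hy ⟨e, x, h⟩)
  · filter_upwards [hsp, hev] with N h5 h6
    refine le_trans (le_of_eq ?_) (h5.trans (le_of_lt ?_))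
    · congr 2
    · exact h6
  · intro L hL
    obtain ⟨e, he⟩ := hPS _ _ hL
    refine h3 e (ρ e) k (Φ B) L hk (fun x => ?_)
    exact (he x).trans (hΦ2 B e x).symm

end Pool.Agent.H752.PL
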