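import Pool.Agent.H752.PL.N7
import Pool.Agent.H752.PL.M12
import Pool.Agent.H944R2.PL.L6

/-! Tasks N6, N8, N12 -/

namespace Pool.Agent.H752.PL

open Pool.Agent.NPC Pool.Agent.H620R2.Gauge Finset H568R2 Pool.Agent.H752.GE Filter

theorem t_nacc : St_nacc := by
  intro M B A x L hB hL
  have h1 : ∀ s y, M.Reach A x s y → NReachB M B A x s y := by
    intro s y h
    induction h with
    | start => exact NReachB.start (hB _ _ NAlg.Reach.start)
    | write hr hg hact ih => exact NReachB.write ih hg hact (hB _ _ (NAlg.Reach.write hr hg hact))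
    | read hr hg hact ih => exact NReachB.read ih hg hact (hB _ _ (NAlg.Reach.read hr hg hact))
    | ask hr hg hact ih => exact NReachB.ask ih hg hact (hB _ _ (NAlg.Reach.ask hr hg hact))
  have h2 : ∀ s y, NReachB M B A x s y → M.Reach A x s y := by
    intro s y h
    induction h with
    | start _ => exact NAlg.Reach.start
    | write _ hg hact _ ih => exact NAlg.Reach.write ih hg hact
    | read _ hg hact _ ih => exact NAlg.Reach.read ih hg hact
    | ask _ hg hact _ ih => exact NAlg.Reach.ask ih hg hact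
  rw [hL]
  constructor
  · rintro ⟨s, y, h, ha⟩
    exact ⟨s, y, h2 s y h, ha⟩
  · rintro ⟨s, y, h, ha⟩
    exact ⟨s, y, h1 s y h, ha⟩

theorem t_nemb : St_nemb := by
  intro A k L h
  obtain ⟨M, c, h⟩ := h
  let M' : NAlg := ⟨M.act, M.act_poly, fun _ => M.next, fun _ => M.next_poly⟩
  have h1 : ∀ x s y, M'.Reach A x s y → M.Reach A x s y := by
    intro x s y h
    induction h with
    | start => exact MAlg.Reach.start
    | write _ _ hact ih => exact MAlg.Reach.write ih hact
    | read _ _ hact ih => exact MAlg.Reach.read ih hact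
    | ask _ _ hact ih => exact MAlg.Reach.ask ih hact
  have h2 : ∀ x s y, M.Reach A x s y → M'.Reach A x s y := by
    intro x s y h
    induction h with
    | start => exact NAlg.Reach.start
    | write _ hact ih => exact NAlg.Reach.write (M := M') (g := false) ih (by simp) hact
    | read _ hact ih => exact NAlg.Reach.read (M := M') (g := false) ih (by simp) hact
    | ask _ hact ih => exact NAlg.Reach.ask (M := M') (g := false) ih (by simp) hact
  refine ⟨M', c, fun x => ⟨fun s y hr => (h x).1 s y (h1 x s y hr), ?_⟩⟩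
  have h3 := t_acc M _ A x L (h x).1 (h x).2
  constructor
  · intro hx
    obtain ⟨s, y, hr, hs⟩ := (h x).2
    rcases hs with ⟨_, hs⟩ | ⟨hx', _⟩
    · exact ⟨s, y, h2 x s y hr, hs⟩
    · exact absurd hx hx'
  · rintro ⟨s, y, hr, hs⟩
    exact h3.1 ⟨s, y, L6.toReachB (h x).1 (h1 x s y hr), hs⟩

theorem n12_countable : Countable NAlg := by
  have h1 : Countable {D : List Bool → List Bool | PolyTime D} := countable_polyTime.to_subtype
  let F : NAlg → {D : List Bool → List Bool | PolyTime D} ×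
    {D : List Bool → List Bool | PolyTime D} × {D : List Bool → List Bool | PolyTime D} :=
    fun M => (⟨M.act, M.act_poly⟩, ⟨M.next false, M.next_poly false⟩,
      ⟨M.next true, M.next_poly true⟩)
  have hF : Function.Injective F := by
    intro M N h
    obtain ⟨D, hD, E, hE⟩ := M
    obtain ⟨D', hD', E', hE'⟩ := N
    simp only [F, Prod.mk.injEq, Subtype.mk.injEq] at h
    obtain ⟨rfl, h2, h3⟩ := h
    have : E = E' := by
      funext g
      cases g
      · exact h2
      · exact h3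
    subst this
    rfl
  exact hF.countable

/-- the oracles for which the parameters are good -/
def N12Easy (k : ℕ) (θ : NAlg × ℕ) : Set Oracle :=
  {A | ∀ x : List Bool,
    (∀ s y, θ.1.Reach A x s y → s.length ≤ θ.2 * (Nat.log 2 x.length + 1) ^ k) ∧
    (x ∈ HL A ↔ ∃ s y, θ.1.Reach A x s y ∧ θ.1.act s = [true])}

theorem n12_cover (h10 : St_pr) (h11 : St_asyS) (k : ℕ) (hk : 1 ≤ k)
    (θ : NAlg × ℕ) (f : ℕ → ℝ) (hf : ∀ ε : ℝ, 0 < ε → ∃ᶠ N : ℕ in atTop,
      f N ≤ 2 ^ (2 : ℝ) ^ (ε * Real.logb 2 (Real.logb 2 N)) ^ (1 / k : ℝ))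
    (δ : ℝ) (hδ : 0 < δ) : ∃ S : Set (List Bool), (∀ A ∈ N12Easy k θ, ∃ σ ∈ S, Extends A σ) ∧
    ∑' σ : S, ENNReal.ofReal (2 ^ (f σ.1.length - σ.1.length)) ≤ ENNReal.ofReal δ := by
  classical
  obtain ⟨M, c⟩ := θ
  obtain ⟨w, hw⟩ := t_nqs M
  obtain ⟨n, N, hn1, hn, hN3, hNw, hb⟩ := h11 f k hk hf (c + 1) w δ hδ
  have hle : c * (Nat.log 2 n + 1) ^ k + 1 ≤ (c + 1) * (Nat.log 2 n + 1) ^ k := by
    have : 1 ≤ (Nat.log 2 n + 1) ^ k := Nat.one_le_pow _ _ (by omega)
    rw [Nat.add_mul]
    omega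
  set B' : ℕ := (c + 1) * (Nat.log 2 n + 1) ^ k with hB'
  set B : ℕ := c * (Nat.log 2 n + 1) ^ k with hB
  choose U hUc hUl hUa using fun j : Fin (2 ^ n) => hw B (bitsOf n j)
  have hpr := h10 n (B + 2) N hn1 (by omega) hN3 U hUc
    (fun j A => NAccB M B A (bitsOf n j)) (fun j A A' h => hUa j A A' h)
  obtain ⟨E, hE⟩ : ∃ E : (Fin N → Bool) → Prop, ∀ σ, E σ ↔ ∀ j : Fin (2 ^ n),
      (NAccB M B (orc N σ) (bitsOf n j) ↔ bitsOf n j ∈ HL (orc N σ)) := ⟨_, fun _ => Iff.rfl⟩
  refine ⟨(fun a : Fin N → Bool => List.ofFn a) '' {a | E a}, ?_, ?_⟩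
  · intro A hA
    refine ⟨List.ofFn (pre N A), ⟨pre N A, (hE _).2 ?_, rfl⟩, ?_⟩
    · intro j
      have hlen : (bitsOf n j).length = n := length_bitsOf n j
      obtain ⟨hA1, hA2⟩ := hA (bitsOf n j)
      rw [hlen] at hA1
      have h1 := t_nacc M B A (bitsOf n j) (HL A) hA1 hA2
      have h2 : NAccB M B (orc N (pre N A)) (bitsOf n j) ↔ NAccB M B A (bitsOf n j) := by
        apply hUa j
        intro u hu
        apply orc_pre
        have h3 := hUl j u hu
        have h4 := idx_lt u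
        have h6 : 2 ^ (B + 2) * w.eval B ≤ 2 ^ (B' + 1) * w.eval B' :=
          Nat.mul_le_mul (Nat.pow_le_pow_right (by norm_num) (by omega))
            (eval_mono w (by omega))
        have h5 : 2 ^ (u.length + 1) ≤ 2 ^ (2 ^ (B' + 1) * w.eval B' + 1) :=
          Nat.pow_le_pow_right (by norm_num) (by omega)
        omega
      rw [h2, h1, l12_hl hN3 hlen]
    · intro i hi
      rw [List.getElem_ofFn]
      rfl
  · have hinj : Set.InjOn (fun a : Fin N → Bool => List.ofFn a) {a | E a} :=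
      fun a _ b _ h => List.ofFn_injective h
    rw [tsum_image (fun σ : List Bool => ENNReal.ofReal (2 ^ (f σ.length - σ.length))) hinj]
    simp only [List.length_ofFn]
    rw [tsum_fintype, Finset.sum_const, nsmul_eq_mul, Finset.card_univ]
    rw [← ENNReal.ofReal_natCast, ← ENNReal.ofReal_mul (by positivity)]
    apply ENNReal.ofReal_le_ofReal
    have h1 : Fintype.card {a : Fin N → Bool | E a} =
        (univ.filter (fun a : Fin N → Bool => E a)).card := by
      rw [← Fintype.card_subtype]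
      rfl
    have h2 := card_of_Ex (fun a : Fin N → Bool => E a)
    have h3 : (2 : ℝ) ^ (f N - N) = 2 ^ (-(N : ℝ)) * 2 ^ f N := by
      rw [← Real.rpow_add (by norm_num)]; congr 1; ring
    rw [h1, h3, ← mul_assoc, h2]
    refine le_trans (mul_le_mul_of_nonneg_right ?_ (by positivity)) hb
    refine le_trans (le_of_eq ?_) hpr
    unfold Ex
    refine Finset.sum_congr rfl fun σ _ => ?_
    beta_reduce
    by_cases h : E σ
    · rw [if_pos h, if_pos ((hE σ).1 h)]
    · rw [if_neg h, if_neg (fun h' => h ((hE σ).2 h'))]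

theorem t_nnull (h10 : St_pr) (h11 : St_asyS) : St_nnull := by
  intro f k hk hf O hO δ hδ
  have := n12_countable
  obtain ⟨δ', hδ', hsum⟩ := ENNReal.exists_pos_sum_of_countable
    (ENNReal.ofReal_pos.2 hδ).ne' (NAlg × ℕ)
  choose S hS hSs using fun θ : NAlg × ℕ =>
    n12_cover h10 h11 k hk θ f hf (δ' θ) (by exact_mod_cast hδ' θ)
  refine ⟨⋃ θ, S θ, ?_, ?_⟩
  · intro A hA
    obtain ⟨M, c, hθ⟩ := hO A hA
    obtain ⟨σ, hσ, hE⟩ := hS (M, c) A hθ
    exact ⟨σ, Set.mem_iUnion.2 ⟨(M, c), hσ⟩, hE⟩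
  · refine (ENNReal.tsum_iUnion_le_tsum (fun σ : List Bool =>
      ENNReal.ofReal (2 ^ (f σ.length - σ.length))) S).trans ?_
    refine (ENNReal.tsum_le_tsum hSs).trans ?_
    refine le_trans (le_of_eq ?_) hsum.le
    congr 1
    funext θ
    exact ENNReal.ofReal_coe_nnreal

end Pool.Agent.H752.PL
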