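import Pool.Agent.H752.PL.StubsN
import Pool.Agent.H622R2.PL.L7

/-!
# N7: the query set of a nondeterministic algorithm (after helper622's L7)
-/

namespace Pool.Agent.H752.PL

open Pool.Agent.NPC Pool.Agent.H622R2 Pool.Agent.H620R2.Gauge Finset H568R2 Pool.Agent.H752.GE Filter

/-- the deterministic part -/
def NAlg.det (M : NAlg) : MAlg where
  act := M.act
  act_poly := M.act_poly
  next := M.next false
  next_poly := M.next_poly false

theorem n7_len {M : NAlg} {B : ℕ} {A : Oracle} {x s y : List Bool} (h : NReachB M B A x s y) :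
    s.length ≤ B := by
  cases h with
  | start h => exact h
  | write _ _ _ h => exact h
  | read _ _ _ h => exact h
  | ask _ _ _ h => exact h

theorem n7_inv {M : NAlg} {B : ℕ} {A : Oracle} {x s y : List Bool} (h : NReachB M B A x s y) :
    (∃ (s0 : List Bool) (k : ℕ), s0.length ≤ B ∧ L7_it M.det B x k s0 = some (s, y)) ∨
    (∃ (s0 z : List Bool) (k : ℕ) (y' : List Bool), s0.length ≤ B ∧ M.act s0 = false :: z ∧
      (M.next true (pairBits s0 [])).length ≤ B ∧
      L7_it M.det B x k (M.next true (pairBits s0 [])) = some (s, y') ∧ y = z ++ y') := by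
  induction h with
  | start hB => exact Or.inl ⟨_, 0, hB, rfl⟩
  | @write s y z g hr hg hact hB ih =>
    cases g with
    | true =>
      have hy := hg rfl
      subst hy
      exact Or.inr ⟨s, z, 0, [], n7_len hr, hact, hB, rfl, by simp⟩
    | false =>
      rcases ih with ⟨s0, k, h0, hk⟩ | ⟨s0, z0, k, y', h0, h1, h2, hk, rfl⟩
      · refine Or.inl ⟨s0, k + 1, h0, ?_⟩
        rw [L7_it, hk]
        simp [L7_stp, NAlg.det, hact, hB]
      · refine Or.inr ⟨s0, z0, k + 1, y' ++ z, h0, h1, h2, ?_, by simp⟩
        rw [L7_it, hk]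
        simp [L7_stp, NAlg.det, hact, hB]
  | @read s y i g hr hg hact hB ih =>
    cases g with
    | true =>
      have hy := hg rfl
      subst hy
      exact Or.inl ⟨_, 0, hB, rfl⟩
    | false =>
      rcases ih with ⟨s0, k, h0, hk⟩ | ⟨s0, z0, k, y', h0, h1, h2, hk, rfl⟩
      · refine Or.inl ⟨s0, k + 1, h0, ?_⟩
        rw [L7_it, hk]
        simp [L7_stp, NAlg.det, hact, hB]
      · refine Or.inr ⟨s0, z0, k + 1, y', h0, h1, h2, ?_, rfl⟩
        rw [L7_it, hk]
        simp [L7_stp, NAlg.det, hact, hB]
  | @ask s y i g _ _ _ hB _ => exact Or.inl ⟨_, 0, hB, rfl⟩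

open Classical in
/-- the first question after the choice `true` -/
noncomputable def n7_q (M : NAlg) (B : ℕ) (x s : List Bool) : List Bool :=
  if (M.next true (pairBits s [])).length ≤ B then
    (M.act s).tail ++ L7_q M.det B x (M.next true (pairBits s [])) else []

theorem t_nqs : St_nqs := by
  classical
  intro M
  obtain ⟨w, hw⟩ := L7_len M.det
  have hw' : ∀ s : List Bool, (M.act s).length ≤ w.eval s.length := hw
  refine ⟨w, fun B x => ?_⟩
  set I := (Finset.range (2 ^ (B + 1))).filter (fun i => (str i).length ≤ B) with hI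
  have hIc : I.card ≤ 2 ^ (B + 1) := by
    refine (Finset.card_filter_le _ _).trans ?_
    rw [Finset.card_range]
  have hmem : ∀ s0 : List Bool, s0.length ≤ B → idx s0 ∈ I := by
    intro s0 h0
    refine Finset.mem_filter.mpr ⟨?_, ?_⟩
    · rw [Finset.mem_range]
      have h2 := idx_lt s0
      have h3 : 2 ^ (s0.length + 1) ≤ 2 ^ (B + 1) :=
        Nat.pow_le_pow_right (by norm_num) (by omega)
      omega
    · rw [str_idx]; exact h0
  refine ⟨I.image (fun i => L7_q M.det B x (str i)) ∪ I.image (fun i => n7_q M B x (str i)),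
    ?_, ?_, ?_⟩
  · refine (Finset.card_union_le _ _).trans ?_
    have h1 : (I.image (fun i => L7_q M.det B x (str i))).card ≤ I.card := Finset.card_image_le
    have h2 : (I.image (fun i => n7_q M B x (str i))).card ≤ I.card := Finset.card_image_le
    have h3 : 2 ^ (B + 2) = 2 ^ (B + 1) + 2 ^ (B + 1) := by ring
    omega
  · intro u hu
    have h3 : 2 ^ (B + 2) = 2 ^ (B + 1) + 2 ^ (B + 1) := by ring
    rcases Finset.mem_union.mp hu with hu | hu
    · obtain ⟨i, hi, rfl⟩ := Finset.mem_image.mp hu
      refine (L7_q_len (Finset.mem_filter.mp hi).2 hw).trans (Nat.mul_le_mul_right _ ?_)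
      omega
    · obtain ⟨i, hi, rfl⟩ := Finset.mem_image.mp hu
      unfold n7_q
      split_ifs with hB
      · have h4 := L7_q_len (x := x) hB hw
        have h5 : (M.act (str i)).length ≤ w.eval B :=
          (hw' _).trans (eval_mono w (Finset.mem_filter.mp hi).2)
        have h6 : (M.act (str i)).tail.length ≤ w.eval B := by
          rw [List.length_tail]; omega
        have h7 : w.eval B ≤ 2 ^ (B + 1) * w.eval B :=
          Nat.le_mul_of_pos_left _ (by positivity)
        rw [List.length_append, h3, Nat.add_mul]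
        omega
      · simp
  · have key : ∀ A A' : Oracle, (∀ u ∈ I.image (fun i => L7_q M.det B x (str i)) ∪
        I.image (fun i => n7_q M B x (str i)), A u = A' u) →
        ∀ s y, NReachB M B A x s y → NReachB M B A' x s y := by
      intro A A' hA s y h
      induction h with
      | start hB => exact NReachB.start hB
      | write _ hg hact hB ih => exact NReachB.write ih hg hact hB
      | read _ hg hact hB ih => exact NReachB.read ih hg hact hB
      | @ask s y i g hr hg hact hB ih =>
        have hy : A y = A' y := by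
          apply hA
          rcases n7_inv hr with ⟨s0, k, h0, hk⟩ | ⟨s0, z0, k, y', h0, h1, h2, hk, rfl⟩
          · rw [← L7_q_eq hk hact]
            refine Finset.mem_union_left _ (Finset.mem_image.mpr ⟨idx s0, hmem s0 h0, ?_⟩)
            rw [str_idx]
          · refine Finset.mem_union_right _ (Finset.mem_image.mpr ⟨idx s0, hmem s0 h0, ?_⟩)
            rw [str_idx]
            unfold n7_q
            rw [if_pos h2, h1, L7_q_eq hk hact]
            rfl
        rw [hy] at hB ⊢
        exact NReachB.ask ih hg hact hB
    intro A A' hA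
    constructor
    · rintro ⟨s, y, h, ha⟩
      exact ⟨s, y, key A A' hA s y h, ha⟩
    · rintro ⟨s, y, h, ha⟩
      exact ⟨s, y, key A' A (fun u hu => (hA u hu).symm) s y h, ha⟩

end Pool.Agent.H752.PL
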