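import Pool.Agent.H752.PL.Defs
import Pool.Agent.H752.GE.Base2
import Pool.Agent.H620R2.Gauge.Base

/-!
# The statements of the tasks
-/

namespace Pool.Agent.H752.PL

open Pool.Agent.NPC Pool.Agent.H620R2.Gauge Finset H568R2 Pool.Agent.H752.GE Filter

/-- the condition on the gauge -/
def CondL (f : ℕ → ℝ) : Prop := ∀ ε : ℝ, 0 < ε → ∃ᶠ N : ℕ in atTop,
  f N ≤ 2 ^ (2 : ℝ) ^ (Real.logb 2 (Real.logb 2 N)) ^ ε

/-- The hard language: `x` is in it if `1 y` is in the oracle, where `y` is the string of the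
`2 |x|` bits which tell which of the strings `0 x 1^i`, `i < 2 |x|`, are in the oracle. -/
def HL (A : Oracle) : Set (List Bool) :=
  {x | A (true :: (List.range (2 * x.length)).map
    (fun i => A (false :: (x ++ List.replicate i true)))) = true}

/-- L1 -/
def St_hl : Prop := ∀ A : Oracle, IsP A (HL A)

/-- L2 -/
def St_vp : Prop := ∃ (V : ℕ → Oracle → List Bool → Prop) (q : ℕ → Polynomial ℕ),
    (∀ e A A' x, (∀ z : List Bool, z.length ≤ (q e).eval x.length → A z = A' z) →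
      (V e A x ↔ V e A' x)) ∧
    ∀ A L, IsPSPACE A L → ∃ e, ∀ x, x ∈ L ↔ V e A x

/-- L3 -/
def St_mach : Prop := ∀ (e r c : ℕ) (A : Oracle) (L : Set (List Bool)),
    (∀ x : List Bool, x ∈ L ↔
      A (codeS (fun _ m => 2 ^ ((Nat.log 2 m + r + 1) ^ c)) e x) = true) → IsPolyL A L

open Classical in
/-- L4 -/
def St_sp : Prop := ∀ (q : ℕ → Polynomial ℕ) (ε : ℝ), 0 < ε → ∃ (c : ℕ) (ρ : ℕ → ℕ),
    (∀ e m, (q e).eval m < 2 ^ ((Nat.log 2 m + ρ e + 1) ^ c)) ∧
    ∀ᶠ N : ℕ in atTop, (((Finset.range N).filter (fun i => ∃ e x,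
      str i = codeS (fun e m => 2 ^ ((Nat.log 2 m + ρ e + 1) ^ c)) e x)).card : ℝ) ≤
      2 ^ (2 : ℝ) ^ (Real.logb 2 (Real.logb 2 N)) ^ ε

/-- L5 -/
def St_nn : Prop := ∀ f : ℕ → ℝ, ¬ CondL f → ∀ O : Set Oracle,
    (∀ A, (∀ L, IsPSPACE A L → IsPolyL A L) → A ∈ O) → ¬ Null f O

/-- like `Reach`, but the memory must never be longer than `B` -/
inductive ReachB (M : MAlg) (B : ℕ) (A : Oracle) (x : List Bool) :
    List Bool → List Bool → Prop
  | start : (true :: Nat.bits x.length).length ≤ B →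
      ReachB M B A x (true :: Nat.bits x.length) []
  | write {s y z : List Bool} : ReachB M B A x s y → M.act s = false :: z →
      (M.next (pairBits s [])).length ≤ B → ReachB M B A x (M.next (pairBits s [])) (y ++ z)
  | read {s y i : List Bool} : ReachB M B A x s y → M.act s = true :: true :: i →
      (M.next (pairBits s (x[val i]?).toList)).length ≤ B →
      ReachB M B A x (M.next (pairBits s (x[val i]?).toList)) y
  | ask {s y i : List Bool} : ReachB M B A x s y → M.act s = true :: false :: i →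
      (M.next (pairBits s [A y])).length ≤ B →
      ReachB M B A x (M.next (pairBits s [A y])) []

/-- the algorithm accepts without using more than `B` bits of memory -/
def AccB (M : MAlg) (B : ℕ) (A : Oracle) (x : List Bool) : Prop :=
  ∃ s y, ReachB M B A x s y ∧ M.act s = [true]

/-- L6 -/
def St_acc : Prop := ∀ (M : MAlg) (B : ℕ) (A : Oracle) (x : List Bool) (L : Set (List Bool)),
    (∀ s y, M.Reach A x s y → s.length ≤ B) →
    (∃ s y, M.Reach A x s y ∧ ((x ∈ L ∧ M.act s = [true]) ∨ (x ∉ L ∧ M.act s = []))) →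
    (AccB M B A x ↔ x ∈ L)

/-- L7 -/
def St_qs : Prop := ∀ M : MAlg, ∃ w : Polynomial ℕ, ∀ (B : ℕ) (x : List Bool),
    ∃ U : Finset (List Bool), U.card ≤ 2 ^ (B + 1) ∧
      (∀ u ∈ U, u.length ≤ 2 ^ (B + 1) * w.eval B) ∧
      ∀ A A' : Oracle, (∀ u ∈ U, A u = A' u) → (AccB M B A x ↔ AccB M B A' x)

/-- the weights of the uniform distribution on a finite set -/
noncomputable def un (Y : Type) [Fintype Y] : Y → ℝ := fun _ => 1 / Fintype.card Y

open Classical in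
/-- L8 -/
def St_p1 : Prop := ∀ (X Y : Type) [Fintype X] [Fintype Y] (D : Finset Y) (y : X → Y)
    (g : X → (Y → Bool) → Bool),
    (∀ j z z', (∀ v ∈ D, z v = z' v) → g j z = g j z') →
    Ex unif (fun z : Y → Bool => if ∀ j, g j z = z (y j) then (1 : ℝ) else 0) ≤
      (1 / 2) ^ (univ.image y \ D).card

open Classical in
/-- L9 -/
def St_p2 : Prop := ∀ (X Y : Type) [Fintype X] [Fintype Y] [Nonempty Y] (D : Finset Y),
    Ex (un Y) (fun y : X → Y => (1 / 2 : ℝ) ^ (univ.image y \ D).card) ≤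
      (1 / 2 + ((D.card : ℝ) + Fintype.card X) / Fintype.card Y) ^ Fintype.card X

open Classical in
/-- L10 -/
def St_pr : Prop := ∀ (n b N : ℕ), 1 ≤ n → b + 3 ≤ n → 2 ^ (3 * n + 3) ≤ N →
    ∀ U : Fin (2 ^ n) → Finset (List Bool), (∀ j, (U j).card ≤ 2 ^ b) →
    ∀ G : Fin (2 ^ n) → Oracle → Prop,
    (∀ j A A', (∀ u ∈ U j, A u = A' u) → (G j A ↔ G j A')) →
    Ex unif (fun σ : Fin N → Bool => if ∀ j : Fin (2 ^ n),
      (G j (orc N σ) ↔ bitsOf n j ∈ HL (orc N σ)) then (1 : ℝ) else 0) ≤ (3 / 4) ^ (2 ^ n)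

/-- L11 -/
def St_asy : Prop := ∀ f : ℕ → ℝ, CondL f → ∀ (c : ℕ) (w : Polynomial ℕ) (δ : ℝ), 0 < δ →
    ∃ n N : ℕ, 1 ≤ n ∧ (Nat.log 2 n + c) ^ c + 1 + 3 ≤ n ∧ 2 ^ (3 * n + 3) ≤ N ∧
      2 ^ (2 ^ ((Nat.log 2 n + c) ^ c + 1) * w.eval ((Nat.log 2 n + c) ^ c) + 1) ≤ N ∧
      (3 / 4 : ℝ) ^ (2 ^ n) * 2 ^ f N ≤ δ

/-- L12 -/
def St_null : Prop := ∀ f : ℕ → ℝ, CondL f → ∀ O : Set Oracle,
    (∀ A ∈ O, IsPolyL A (HL A)) → Null f O

end Pool.Agent.H752.PL
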