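import Pool.Agent.H752.PL.Stubs
import Pool.Agent.H752.PL.Defs2

/-!
# The statements of the tasks, second part
-/

namespace Pool.Agent.H752.PL

open Pool.Agent.NPC Pool.Agent.H620R2.Gauge Finset H568R2 Pool.Agent.H752.GE Filter

/-- a language in polylogarithmic space which depends on very long strings -/
def H2 (A : Oracle) : Set (List Bool) :=
  {x | A (codeS (fun _ m => 2 ^ ((Nat.log 2 m + 0 + 1) ^ 2)) 0 x) = true}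

/-- L13 -/
def St_asy2 : Prop := ∀ f : ℕ → ℝ, CondL f → ∀ (q : Polynomial ℕ) (δ : ℝ), 0 < δ →
    ∃ n N : ℕ, 1 ≤ n ∧ q.eval n + 1 ≤ 2 ^ ((Nat.log 2 n + 1) ^ 2) ∧
      2 ^ (2 ^ ((Nat.log 2 n + 1) ^ 2) + n + 4) ≤ N ∧ (1 / 2 : ℝ) ^ (2 ^ n) * 2 ^ f N ≤ δ

/-- L14 -/
def St_rev : Prop := ∀ f : ℕ → ℝ, CondL f → ∀ O : Set Oracle,
    (∀ A ∈ O, IsPSPACE A (H2 A)) → Null f O

/-- K3 -/
def St_machK : Prop := ∀ (e r k : ℕ) (A : Oracle) (L : Set (List Bool)), 1 ≤ k →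
    (∀ x : List Bool, x ∈ L ↔
      A (codeS (fun _ m => 2 ^ (r * (Nat.log 2 m + r + 1) ^ k)) e x) = true) → IsMem A k L

open Classical in
/-- K4 -/
def St_spK : Prop := ∀ (k : ℕ) (q : ℕ → Polynomial ℕ) (s : ℝ), 1 ≤ k → 1 / k < s →
    ∃ ρ : ℕ → ℕ,
    (∀ e m, (q e).eval m < 2 ^ (ρ e * (Nat.log 2 m + ρ e + 1) ^ k)) ∧
    ∀ᶠ N : ℕ in atTop, (((Finset.range N).filter (fun i => ∃ e x,
      str i = codeS (fun e m => 2 ^ (ρ e * (Nat.log 2 m + ρ e + 1) ^ k)) e x)).card : ℝ) ≤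
      2 ^ (2 : ℝ) ^ (Real.logb 2 (Real.logb 2 N)) ^ s

/-- K5 -/
def St_nnK : Prop := ∀ (f : ℕ → ℝ) (k : ℕ) (s : ℝ), 1 ≤ k → 1 / k < s →
    (∀ᶠ N : ℕ in atTop, 2 ^ (2 : ℝ) ^ (Real.logb 2 (Real.logb 2 N)) ^ s < f N) →
    ∀ O : Set Oracle, (∀ A, (∀ L, IsPSPACE A L → IsMem A k L) → A ∈ O) → ¬ Null f O

/-- K11 -/
def St_asyK : Prop := ∀ (f : ℕ → ℝ) (k : ℕ) (s : ℝ), 1 ≤ k → 0 < s → s < 1 / k →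
    (∃ᶠ N : ℕ in atTop, f N ≤ 2 ^ (2 : ℝ) ^ (Real.logb 2 (Real.logb 2 N)) ^ s) →
    ∀ (c : ℕ) (w : Polynomial ℕ) (δ : ℝ), 0 < δ →
    ∃ n N : ℕ, 1 ≤ n ∧ c * (Nat.log 2 n + 1) ^ k + 1 + 3 ≤ n ∧ 2 ^ (3 * n + 3) ≤ N ∧
      2 ^ (2 ^ (c * (Nat.log 2 n + 1) ^ k + 1) * w.eval (c * (Nat.log 2 n + 1) ^ k) + 1) ≤ N ∧
      (3 / 4 : ℝ) ^ (2 ^ n) * 2 ^ f N ≤ δ

/-- K12 -/
def St_nullK : Prop := ∀ (f : ℕ → ℝ) (k : ℕ) (s : ℝ), 1 ≤ k → 0 < s → s < 1 / k →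
    (∃ᶠ N : ℕ in atTop, f N ≤ 2 ^ (2 : ℝ) ^ (Real.logb 2 (Real.logb 2 N)) ^ s) →
    ∀ O : Set Oracle, (∀ A ∈ O, IsMem A k (HL A)) → Null f O

end Pool.Agent.H752.PL
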