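import Pool.Agent.H752.PL.Stubs2

/-!
# The statements of the tasks, third part: the exact threshold for each `k`
-/

namespace Pool.Agent.H752.PL

open Pool.Agent.NPC Pool.Agent.H620R2.Gauge Finset H568R2 Pool.Agent.H752.GE Filter

open Classical in
/-- M4 -/
def St_spS : Prop := ∀ (k : ℕ) (q : ℕ → Polynomial ℕ) (ε : ℝ), 1 ≤ k → 0 < ε →
    ∃ ρ : ℕ → ℕ,
    (∀ e m, (q e).eval m < 2 ^ (ρ e * (Nat.log 2 m + ρ e + 1) ^ k)) ∧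
    ∀ᶠ N : ℕ in atTop, (((Finset.range N).filter (fun i => ∃ e x,
      str i = codeS (fun e m => 2 ^ (ρ e * (Nat.log 2 m + ρ e + 1) ^ k)) e x)).card : ℝ) ≤
      2 ^ (2 : ℝ) ^ (ε * Real.logb 2 (Real.logb 2 N)) ^ (1 / k : ℝ)

/-- M5 -/
def St_nnS : Prop := ∀ (f : ℕ → ℝ) (k : ℕ) (ε : ℝ), 1 ≤ k → 0 < ε →
    (∀ᶠ N : ℕ in atTop, 2 ^ (2 : ℝ) ^ (ε * Real.logb 2 (Real.logb 2 N)) ^ (1 / k : ℝ) < f N) →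
    ∀ O : Set Oracle, (∀ A, (∀ L, IsPSPACE A L → IsMem A k L) → A ∈ O) → ¬ Null f O

/-- M11 -/
def St_asyS : Prop := ∀ (f : ℕ → ℝ) (k : ℕ), 1 ≤ k →
    (∀ ε : ℝ, 0 < ε → ∃ᶠ N : ℕ in atTop,
      f N ≤ 2 ^ (2 : ℝ) ^ (ε * Real.logb 2 (Real.logb 2 N)) ^ (1 / k : ℝ)) →
    ∀ (c : ℕ) (w : Polynomial ℕ) (δ : ℝ), 0 < δ →
    ∃ n N : ℕ, 1 ≤ n ∧ c * (Nat.log 2 n + 1) ^ k + 1 + 3 ≤ n ∧ 2 ^ (3 * n + 3) ≤ N ∧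
      2 ^ (2 ^ (c * (Nat.log 2 n + 1) ^ k + 1) * w.eval (c * (Nat.log 2 n + 1) ^ k) + 1) ≤ N ∧
      (3 / 4 : ℝ) ^ (2 ^ n) * 2 ^ f N ≤ δ

/-- M12 -/
def St_nullS : Prop := ∀ (f : ℕ → ℝ) (k : ℕ), 1 ≤ k →
    (∀ ε : ℝ, 0 < ε → ∃ᶠ N : ℕ in atTop,
      f N ≤ 2 ^ (2 : ℝ) ^ (ε * Real.logb 2 (Real.logb 2 N)) ^ (1 / k : ℝ)) →
    ∀ O : Set Oracle, (∀ A ∈ O, IsMem A k (HL A)) → Null f O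

end Pool.Agent.H752.PL
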